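import Pool.Agent.H.MP_12d0d1_lc.Defs
import Pool.Agent.Lib.helper25.RelGr
import Pool.Agent.Lib.lead.CXBase

namespace Pool.Agent.H.MP_12d0d1_lc

open Pool.Agent.Lib.CX

abbrev K := ℕ × ℕ × ℕ
abbrev Q4 := ℕ × ℕ × ℕ × ℕ

def qq (Q : List Q4) (j : ℕ) : Q4 := Q.getD j (0, 0, 0, 0)

def nb (Q : List Q4) (x : K) : List K :=
  if x.1 = 0 then (if x.2.2 = 0 then [(1, x.2), (2, x.2)] else
    [(1, x.2), (2, x.2), (1, x.2.1, x.2.2 - 1), (3, x.2.1, x.2.2 - 1)])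
  else if x.1 = 1 then [(0, x.2), (2, x.2), (0, x.2.1, x.2.2 + 1), (3, x.2)]
  else if x.1 = 2 then [(0, x.2), (1, x.2), (4, x.2), (5, x.2)]
  else if x.1 = 3 then [(1, x.2), (0, x.2.1, x.2.2 + 1)]
  else if x.1 = 4 then (if x.2.2 % 4 = 0 then [(2, x.2), (5, x.2), (4, (qq Q (x.2.2 / 4)).2.1, x.2.2 + 1), (6, 0, x.2.2 / 4)]
    else if x.2.2 % 4 = 1 then [(2, x.2), (5, x.2), (4, (qq Q (x.2.2 / 4)).1, x.2.2 - 1)]
    else [(2, x.2), (5, x.2), (6, 0, x.2.2 / 4)])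
  else if x.1 = 5 then [(2, x.2), (4, x.2)]
  else [(4, (qq Q x.2.2).1, 4 * x.2.2), (4, (qq Q x.2.2).2.2.1, 4 * x.2.2 + 2), (4, (qq Q x.2.2).2.2.2, 4 * x.2.2 + 3)]

def In (N m : ℕ) (x : K) : Prop :=
  x.2.1 < N ∧ (x.1 = 0 ∧ x.2.2 ≤ 4 * m ∨ x.1 < 6 ∧ x.2.2 < 4 * m ∨ x.1 = 6 ∧ x.2.1 = 0 ∧ x.2.2 < m)
instance (N m x) : Decidable (In N m x) := by unfold In; infer_instance

def vs (N m : ℕ) : List K := (List.range 7 ×ˢ (List.range N ×ˢ List.range (4 * m + 1))).filter fun x => In N m x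
theorem mem_vs {N m x} : x ∈ vs N m ↔ In N m x := by
  obtain ⟨t, c, i⟩ := x
  simp only [vs, List.mem_filter, List.mem_product, List.mem_range, decide_eq_true_eq, In]; omega

def rel (Q : List Q4) (e : K × K) : Bool := e.1 ∈ nb Q e.2 ∧ e.2 ∈ nb Q e.1
def gr (N : ℕ) (Q : List Q4) : Gr := relGr (vs N Q.length) (rel Q)
abbrev nm (N : ℕ) (Q : List Q4) := relNm (vs N Q.length) (rel Q)

theorem adj {N Q} {u v : Fin (gr N Q).n} : (gr N Q).G.Adj u v ↔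
    nm N Q u ≠ nm N Q v ∧ nm N Q u ∈ nb Q (nm N Q v) ∧ nm N Q v ∈ nb Q (nm N Q u) :=
  (relGr_adj _ _ u v).trans (by simp only [rel, decide_eq_true_eq]; tauto)

theorem apex (Q x) : (nb Q x).length ≤ 3 ∨ (nb Q x).length ≤ 4 ∧ ∃ a ∈ nb Q x, ∀ y ∈ nb Q a, y = x ∨ y ∈ nb Q x := by
  obtain ⟨t, c, i⟩ := x
  by_cases h0 : t = 0
  · subst h0
    by_cases hi : i = 0
    · simp [nb, hi]
    · exact .inr ⟨by simp [nb, hi], (3, c, i - 1), by simp [nb, hi], by simp [nb, hi]; omega⟩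
  by_cases h1 : t = 1
  · exact .inr ⟨by simp [nb, h1], (3, c, i), by simp [nb, h1], by simp [nb, h1]⟩
  by_cases h2 : t = 2
  · exact .inr ⟨by simp [nb, h2], (5, c, i), by simp [nb, h2], by simp [nb, h2]⟩
  by_cases h4 : t = 4
  · subst h4
    by_cases hi : i % 4 = 0
    · exact .inr ⟨by simp [nb, hi], (5, c, i), by simp [nb, hi], by simp [nb, hi]⟩
    · left; simp only [nb, hi]; simp; split_ifs <;> simp
  · left; simp only [nb, h0, h1, h2, h4, if_false]; split_ifs <;> simp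

theorem free (N Q) : S2222.Free (gr N Q).G := by
  rintro ⟨f⟩
  let g : Fin 9 → K := fun i => nm N Q (f i)
  have gi : Function.Injective g := (relNm_inj _ _).comp f.injective
  have ga : ∀ i j, S2222.Adj i j → g j ∈ nb Q (g i) := fun i j h => (adj.1 (f.toHom.map_rel h)).2.2
  have sub : [g 1, g 2, g 3, g 4] ⊆ nb Q (g 0) := by
    simp only [List.cons_subset, List.nil_subset, and_true]
    refine ⟨ga _ _ ?_, ga _ _ ?_, ga _ _ ?_, ga _ _ ?_⟩ <;> simp [S2222]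
  have nd : [g 1, g 2, g 3, g 4].Nodup := (show ([1, 2, 3, 4] : List (Fin 9)).Nodup by decide).map gi
  have sp := nd.subperm sub
  obtain h | ⟨h, a, ha, hb⟩ := apex Q (g 0)
  · have := sp.length_le; simp at this; omega
  have pm := sp.perm_of_length_le (by simpa using h)
  have key : ∀ i j : Fin 9, S2222.Adj i j → 5 ≤ j.1 → a ≠ g i := fun i j e l q => by
    obtain r | r := hb _ (q ▸ ga i j e)
    · have := congrArg Fin.val (gi r); simp at this; omega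
    · have := pm.symm.subset r
      simp only [List.mem_cons, gi.eq_iff, List.not_mem_nil, or_false] at this
      revert l; obtain rfl | rfl | rfl | rfl := this <;> simp
  have := pm.symm.subset ha
  simp only [List.mem_cons, List.not_mem_nil, or_false] at this
  obtain r | r | r | r := this
  exacts [key 1 5 (by simp [S2222]) (by simp) r, key 2 6 (by simp [S2222]) (by simp) r,
    key 3 7 (by simp [S2222]) (by simp) r, key 4 8 (by simp [S2222]) (by simp) r]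

def Csp (N : ℕ) (Q : List Q4) : Prop := ∃ col : ℕ → Bool, (∃ c < N, ∃ d < N, col c ≠ col d) ∧
  ∀ q ∈ Q, col q.1 = col q.2.1 ∨ col q.1 = col q.2.2.1 ∨ col q.1 = col q.2.2.2

theorem mc_iff {N Q} : HasMC (gr N Q).G ↔ ∃ f : K → Bool, (∃ x y, In N Q.length x ∧ In N Q.length y ∧ f x ≠ f y) ∧
    ∀ x y z, In N Q.length x → In N Q.length y → In N Q.length z → x ∈ nb Q y → y ∈ nb Q x → x ∈ nb Q z → z ∈ nb Q x →
      f x ≠ f y → f x ≠ f z → y = z := by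
  classical
  have r : ∀ {x}, In N Q.length x ↔ ∃ u, nm N Q u = x := mem_vs.symm.trans (relNm_range _ _ _)
  have inj : Function.Injective (nm N Q) := relNm_inj _ _
  constructor
  · rintro ⟨A, ⟨a, ha⟩, ⟨b, hb⟩, h⟩
    have e : ∀ u, (∃ w ∈ A, nm N Q w = nm N Q u) ↔ u ∈ A := fun u => ⟨fun ⟨w, a, b⟩ => inj b ▸ a, fun a => ⟨u, a, rfl⟩⟩
    refine ⟨fun x => decide (∃ w ∈ A, nm N Q w = x), ⟨_, _, r.2 ⟨a, rfl⟩, r.2 ⟨b, rfl⟩, by
      simp only [e, ne_eq, decide_eq_decide]; exact fun q => hb (q.1 ha)⟩, ?_⟩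
    intro x y z hx hy hz h1 h2 h3 h4 h5 h6
    obtain ⟨u, rfl⟩ := r.1 hx
    obtain ⟨v, rfl⟩ := r.1 hy
    obtain ⟨w, rfl⟩ := r.1 hz
    simp only [e, ne_eq, decide_eq_decide] at h5 h6
    exact congrArg _ (h u v w (adj.2 ⟨fun q => h5 (by rw [inj q]), h1, h2⟩) (adj.2 ⟨fun q => h6 (by rw [inj q]), h3, h4⟩)
      (by tauto) (by tauto))
  · rintro ⟨f, ⟨x, y, hx, hy, e⟩, h⟩
    obtain ⟨u, rfl⟩ := r.1 hx
    obtain ⟨v, rfl⟩ := r.1 hy
    refine ⟨{w | f (nm N Q w) = f (nm N Q u)}, ⟨u, rfl⟩, ⟨v, e.symm⟩, fun a b c h1 h2 h3 h4 => inj ?_⟩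
    simp only [Set.mem_setOf_eq] at h3 h4
    exact h _ _ _ (r.2 ⟨a, rfl⟩) (r.2 ⟨b, rfl⟩) (r.2 ⟨c, rfl⟩) (adj.1 h1).2.1 (adj.1 h1).2.2 (adj.1 h2).2.1 (adj.1 h2).2.2
      (fun q => by rw [q] at h3; tauto) (fun q => by rw [q] at h4; tauto)

end Pool.Agent.H.MP_12d0d1_lc
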