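import Pool.Agent.H.MP_12d0d1_lc.A

namespace Pool.Agent.H.MP_12d0d1_lc

open Pool.Agent.Lib.CX

theorem qq_mem {Q : List Q4} {j} (h : j < Q.length) : qq Q j ∈ Q := by
  rw [qq, List.getD_eq_getElem _ _ h]; exact List.getElem_mem _

theorem bwd {N Q} (h : Csp N Q) : HasMC (gr N Q).G := by
  obtain ⟨col, ⟨c, hc, d, hd, e⟩, h⟩ := h
  refine mc_iff.2 ⟨fun x => if x.1 < 6 then col x.2.1 else
    if col (qq Q x.2.2).2.2.1 = col (qq Q x.2.2).2.2.2 then col (qq Q x.2.2).2.2.1 else col (qq Q x.2.2).1,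
    ⟨(0, c, 0), (0, d, 0), by simp [In, hc], by simp [In, hd], by simpa using e⟩, ?_⟩
  rintro ⟨t, c, i⟩ y z hx - - h1 h2 h3 h4 h5 h6
  simp only [In] at hx
  obtain rfl | rfl | rfl | rfl | rfl | rfl | rfl : t = 0 ∨ t = 1 ∨ t = 2 ∨ t = 3 ∨ t = 4 ∨ t = 5 ∨ t = 6 := by omega
  · exfalso; revert h5; simp only [nb] at h2; split_ifs at h2 <;> simp at h2 <;> rcases h2 with rfl | rfl | rfl | rfl <;> simp
  · exfalso; revert h5; simp [nb] at h2; rcases h2 with rfl | rfl | rfl | rfl <;> simp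
  · exfalso; revert h5; simp [nb] at h2; rcases h2 with rfl | rfl | rfl | rfl <;> simp
  · exfalso; revert h5; simp [nb] at h2; rcases h2 with rfl | rfl <;> simp
  · by_cases h0 : i % 4 = 0
    · have k := h _ (qq_mem (show i / 4 < Q.length by omega))
      simp [nb, h0] at h2 h4
      have key : (4, c, i) ∈ nb Q (6, 0, i / 4) → c = (qq Q (i / 4)).1 := by simp [nb]; omega
      rcases h2 with rfl | rfl | rfl | rfl <;> rcases h4 with rfl | rfl | rfl | rfl <;> simp at h5 h6 ⊢
      · obtain rfl := key h3; split_ifs at h6 <;> simp_all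
      · obtain rfl := key h1; split_ifs at h5 <;> simp_all
    · by_cases h1 : i % 4 = 1 <;> simp [nb, h0, h1] at h2 h4 <;> rcases h2 with rfl | rfl | rfl <;>
        rcases h4 with rfl | rfl | rfl <;> simp at h5 h6 ⊢
  · exfalso; revert h5; simp [nb] at h2; rcases h2 with rfl | rfl <;> simp
  · simp [nb] at h2 h4
    rcases h2 with rfl | rfl | rfl <;> rcases h4 with rfl | rfl | rfl <;> simp at h5 h6 ⊢ <;> revert h5 h6 <;>
      cases col (qq Q i).1 <;> cases col (qq Q i).2.2.1 <;> cases col (qq Q i).2.2.2 <;> simp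

theorem n0 (Q c i) : (1, c, i) ∈ nb Q (0, c, i) ∧ (2, c, i) ∈ nb Q (0, c, i) := by
  by_cases h : i = 0 <;> simp [nb, h]
theorem n4 (Q c i) : (2, c, i) ∈ nb Q (4, c, i) ∧ (5, c, i) ∈ nb Q (4, c, i) := by
  by_cases h : i % 4 = 0 <;> by_cases h' : i % 4 = 1 <;> simp [nb, h, h']

theorem tri {N} {Q : List Q4} {f : K → Bool} (h : ∀ x y z, In N Q.length x → In N Q.length y → In N Q.length z → x ∈ nb Q y →
    y ∈ nb Q x → x ∈ nb Q z → z ∈ nb Q x → f x ≠ f y → f x ≠ f z → y = z) {c} (hc : c < N) {i} (hi : i < 4 * Q.length) :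
    (f (1, c, i) = f (0, c, i) ∧ f (2, c, i) = f (0, c, i)) ∧ (f (3, c, i) = f (1, c, i) ∧ f (0, c, i + 1) = f (1, c, i)) ∧
    (f (4, c, i) = f (2, c, i) ∧ f (5, c, i) = f (2, c, i)) := by
  have tri : ∀ x y z, In N Q.length x → In N Q.length y → In N Q.length z → x ∈ nb Q y → y ∈ nb Q x → x ∈ nb Q z →
      z ∈ nb Q x → y ∈ nb Q z → z ∈ nb Q y → x ≠ y → x ≠ z → y ≠ z → f y = f x ∧ f z = f x := by
    intro x y z a b c d e g i j k l m n
    have r1 := fun p q => n (h x y z a b c d e g i p q)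
    have r2 := fun p q => m (h y x z b a c e d j k p q)
    have r3 := fun p q => l (h z x y c a b i g k j p q)
    revert r1 r2 r3
    cases f x <;> cases f y <;> cases f z <;> simp
  refine ⟨tri _ _ _ (by simp [In]; omega) (by simp [In]; omega) (by simp [In]; omega) (by simp [nb])
      (n0 ..).1 (by simp [nb]) (n0 ..).2 (by simp [nb]) (by simp [nb]) (by simp) (by simp) (by simp),
    tri _ _ _ (by simp [In]; omega) (by simp [In]; omega) (by simp [In]; omega) (by simp [nb])
      (by simp [nb]) (by simp [nb]) (by simp [nb]) (by simp [nb]) (by simp [nb]) (by simp) (by simp) (by simp),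
    tri _ _ _ (by simp [In]; omega) (by simp [In]; omega) (by simp [In]; omega) (n4 ..).1
      (by simp [nb]) (by simp [nb]) (by simp [nb]) (by simp [nb]) (n4 ..).2 (by simp) (by simp) (by simp)⟩

theorem fwd {N Q} (hN : 0 < N) (hQ : ∀ q ∈ Q, q.1 < N ∧ q.2.1 < N ∧ q.2.2.1 < N ∧ q.2.2.2 < N) (h : HasMC (gr N Q).G) :
    Csp N Q := by
  obtain ⟨f, ⟨x, y, hx, hy, e⟩, h⟩ := mc_iff.1 h
  have t1 := fun c (hc : c < N) i (hi : i < 4 * Q.length) => (tri h hc hi).1
  have t2 := fun c (hc : c < N) i (hi : i < 4 * Q.length) => (tri h hc hi).2.1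
  have t3 := fun c (hc : c < N) i (hi : i < 4 * Q.length) => (tri h hc hi).2.2
  have t0 : ∀ c < N, ∀ i ≤ 4 * Q.length, f (0, c, i) = f (0, c, 0) := fun c hc i hi => by
    induction i with
    | zero => rfl
    | succ i ih => rw [(t2 c hc i hi).2, (t1 c hc i hi).1, ih (by omega)]
  have t4 : ∀ c < N, ∀ i < 4 * Q.length, f (4, c, i) = f (0, c, 0) := fun c hc i hi => by
    rw [(t3 c hc i hi).1, (t1 c hc i hi).2, t0 c hc i hi.le]
  have tB : ∀ j < Q.length, f (6, 0, j) = f (0, (qq Q j).2.2.1, 0) ∨ f (6, 0, j) = f (0, (qq Q j).2.2.2, 0) := by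
    intro j hj
    obtain ⟨-, -, a, b⟩ := hQ _ (qq_mem hj)
    rw [← t4 _ a (4 * j + 2) (by omega), ← t4 _ b (4 * j + 3) (by omega)]
    by_contra q
    push Not at q
    simpa using h _ _ _ (by simp [In]; omega) (by simp [In]; omega) (by simp [In]; omega)
      (by simp [nb, show (4 * j + 2) % 4 = 2 by omega]; omega) (by simp [nb])
      (by simp [nb, show (4 * j + 3) % 4 = 3 by omega]; omega) (by simp [nb]) q.1 q.2
  refine ⟨fun c => f (0, c, 0), ?_, fun q hq => ?_⟩
  · by_contra q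
    push Not at q
    have : ∀ x, In N Q.length x → f x = f (0, 0, 0) := by
      rintro ⟨t, c, i⟩ hx
      simp only [In] at hx
      rw [← q c hx.1 0 hN]
      obtain rfl | rfl | rfl | rfl | rfl | rfl | rfl : t = 0 ∨ t = 1 ∨ t = 2 ∨ t = 3 ∨ t = 4 ∨ t = 5 ∨ t = 6 := by omega
      · exact t0 c hx.1 i (by omega)
      · rw [(t1 c hx.1 i (by omega)).1, t0 c hx.1 i (by omega)]
      · rw [(t1 c hx.1 i (by omega)).2, t0 c hx.1 i (by omega)]
      · rw [(t2 c hx.1 i (by omega)).1, (t1 c hx.1 i (by omega)).1, t0 c hx.1 i (by omega)]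
      · exact t4 c hx.1 i (by omega)
      · rw [(t3 c hx.1 i (by omega)).2, (t1 c hx.1 i (by omega)).2, t0 c hx.1 i (by omega)]
      · obtain rfl : c = 0 := by omega
        obtain ⟨-, -, a, b⟩ := hQ _ (qq_mem (show i < Q.length by omega))
        obtain r | r := tB i (by omega) <;> rw [r]
        exacts [q _ a 0 hN, q _ b 0 hN]
    exact e (by rw [this x hx, this y hy])
  · obtain ⟨j, hj, rfl⟩ := List.getElem_of_mem hq
    have e : qq Q j = Q[j] := List.getD_eq_getElem _ _ hj
    obtain ⟨a, b, -⟩ := hQ _ hq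
    have := tB j hj
    rw [e] at this
    have k : f (4, Q[j].1, 4 * j) = f (4, Q[j].2.1, 4 * j + 1) ∨ f (4, Q[j].1, 4 * j) = f (6, 0, j) := by
      by_contra q
      push Not at q
      simpa using h _ _ _ (by simp [In]; omega) (by simp [In]; omega) (by simp [In]; omega)
        (by simp [nb, show (4 * j + 1) % 4 = 1 by omega, show (4 * j + 1) / 4 = j by omega, e]) (by simp [nb, e])
        (by simp [nb, e]) (by simp [nb]) q.1 q.2
    rw [t4 _ a _ (by omega), t4 _ b _ (by omega)] at k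
    beta_reduce
    rcases k with k | k
    · exact .inl k
    · exact .inr (k ▸ this)

def qs (φ : List (T3 ℕ)) : List Q4 := (List.range (3 * φ.length)).map (fun x => (x + 2, 0, 1, 1)) ++
  φ.flatMap fun C => [(0, C.1 + 2, C.2.1 + 2, C.2.2 + 2), (1, C.1 + 2, C.2.1 + 2, C.2.2 + 2)]

theorem csp_iff (φ : List (T3 ℕ)) :
    SatR nae φ ↔ Csp (3 * φ.length + 2) (qs φ) := by
  simp only [Csp, qs, List.forall_mem_append, List.forall_mem_map, List.forall_mem_flatMap, List.forall_mem_cons,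
    List.mem_range]
  constructor
  · rintro ⟨v, hv⟩
    refine ⟨fun c => if c < 2 then decide (c = 0) else v (c - 2), ⟨0, by omega, 1, by omega, by simp⟩,
      fun x _ => by cases v x <;> simp, fun C hC => ?_⟩
    have := hv C hC
    revert this
    simp only [show ∀ x : ℕ, ¬ x + 2 < 2 by omega, if_false, Nat.add_sub_cancel]
    cases v C.1 <;> cases v C.2.1 <;> cases v C.2.2 <;> simp [nae]
  · rintro ⟨col, ⟨c, hc, d, hd, e⟩, h1, h2⟩
    have ne : col 0 ≠ col 1 := fun q => by
      have : ∀ c < 3 * φ.length + 2, col c = col 0 := fun c hc => by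
        obtain rfl | rfl | ⟨x, rfl⟩ : c = 0 ∨ c = 1 ∨ ∃ x, c = x + 2 := by
          rcases c with _ | _ | c <;> simp
        exacts [rfl, q.symm, by simpa [← q] using h1 x (by omega)]
      exact e (by rw [this c hc, this d hd])
    refine ⟨fun x => col (x + 2), fun C hC => ?_⟩
    have := h2 C hC
    revert this ne
    beta_reduce
    cases col 0 <;> cases col 1 <;> cases col (C.1 + 2) <;> cases col (C.2.1 + 2) <;> cases col (C.2.2 + 2) <;> simp [nae]

def red (φ : List (T3 ℕ)) : Gr := gr (3 * φ.length + 2) (qs φ)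

set_option synthInstance.maxSize 2000 in
theorem pt_red : PT red := by
  have q : PT qs := by unfold qs; fun_prop
  have a : PT fun φ : List (T3 ℕ) => vs (3 * φ.length + 2) (qs φ).length := by unfold vs In; fun_prop
  have b : PT fun p : List Q4 × K => nb p.1 p.2 := by unfold nb qq; fun_prop
  exact PT.relGr a (by unfold rel; fun_prop)

theorem free' (φ) : S2222.Free (red φ).G := free _ _

theorem key {φ : List (T3 ℕ)} (h : ∀ C ∈ φ, C.dist ∧ ∀ x ∈ C.vars, x < 3 * φ.length) : SatR nae φ ↔ HasMC (red φ).G :=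
  (csp_iff φ).trans
    ⟨bwd, fwd (by omega) (by
      simp only [qs, List.forall_mem_append, List.forall_mem_map, List.forall_mem_flatMap, List.forall_mem_cons,
        List.mem_range]
      refine ⟨fun x _ => by omega, fun C hC => ?_⟩
      have := (h C hC).2
      simp only [T3.vars, List.forall_mem_cons] at this
      simp; omega)⟩

attribute [local irreducible] red in
theorem hard : NPHard fun a : {a : Gr // S2222.Free a.G} => HasMC a.1.G :=
  NPHard.of_nae (fun φ => ⟨red φ, free' φ⟩) (pt_red.subtype _) fun _ h => key h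

def chk (a : Gr) (L : List Bool) : Prop :=
  (∃ u ∈ List.range a.n, ∃ v ∈ List.range a.n, L.getD u false ≠ L.getD v false) ∧
  ∀ u ∈ List.range a.n, ∀ v ∈ List.range a.n, ∀ w ∈ List.range a.n, a.adjB u v = true → a.adjB u w = true →
    L.getD u false ≠ L.getD v false → L.getD u false ≠ L.getD w false → v = w
instance (a L) : Decidable (chk a L) := by unfold chk; infer_instance

set_option synthInstance.maxSize 2000 in
theorem inNP : InNP fun a : Gr => HasMC a.G := by
  classical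
  refine InNP.of_cert' chk (fun a => a.n * 3 + 2) (by unfold chk; fun_prop) (by fun_prop) ?_ ?_
  · rintro a L ⟨⟨u, hu, v, hv, e⟩, h⟩
    refine ⟨{w | L.getD w false = L.getD u false}, ⟨⟨u, List.mem_range.1 hu⟩, rfl⟩, ⟨⟨v, List.mem_range.1 hv⟩, e.symm⟩,
      fun x y z h1 h2 h3 h4 => Fin.ext ?_⟩
    simp only [Set.mem_setOf_eq] at h3 h4
    exact h x (by simp) y (by simp) z (by simp) ((Gr.adjB_iff _ _ _).2 h1) ((Gr.adjB_iff _ _ _).2 h2)
      (fun q => by rw [q] at h3; tauto) (fun q => by rw [q] at h4; tauto)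
  · rintro a ⟨A, ⟨u, hu⟩, ⟨v, hv⟩, h⟩
    have e : ∀ u : Fin a.n, (List.ofFn fun u => decide (u ∈ A)).getD u false = decide (u ∈ A) := fun u => by simp
    refine ⟨List.ofFn fun u => decide (u ∈ A), (size_list_le (B := 2) ?_).trans (by simp), ⟨u, by simp, v, by simp, ?_⟩,
      fun x hx y hy z hz h1 h2 h3 h4 => ?_⟩
    · exact fun b _ => by cases b <;> decide
    · rw [e, e]; simpa [hu] using hv
    · rw [List.mem_range] at hx hy hz
      have a1 := e ⟨x, hx⟩
      have a2 := e ⟨y, hy⟩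
      have a3 := e ⟨z, hz⟩
      simp only at a1 a2 a3
      rw [a1, a2] at h3
      rw [a1, a3] at h4
      simp only [ne_eq, decide_eq_decide] at h3 h4
      exact congrArg Fin.val (h ⟨x, hx⟩ ⟨y, hy⟩ ⟨z, hz⟩ ((Gr.adjB_iff _ _ _).1 h1) ((Gr.adjB_iff _ _ _).1 h2)
        (by tauto) (by tauto))

end Pool.Agent.H.MP_12d0d1_lc
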