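import Pool.Agent.Lib.lead.CXGraph

namespace Pool.Agent.H.MP_12d0d1_lc

variable {V : Type}

/-- `K_{1,4}` with every edge subdivided once: centre `0`, middle vertices `1..4`, leaves `5..8` -/
def S2222 : SimpleGraph (Fin 9) :=
  SimpleGraph.fromRel fun u v => (u.1 = 0 ∧ 1 ≤ v.1 ∧ v.1 ≤ 4) ∨ (1 ≤ u.1 ∧ v.1 = u.1 + 4)

/-- the vertices split into two nonempty sets `A`, `Aᶜ` such that the crossing edges form a matching -/
def HasMC (G : SimpleGraph V) : Prop :=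
  ∃ A : Set V, A.Nonempty ∧ Aᶜ.Nonempty ∧
    ∀ u v w, G.Adj u v → G.Adj u w → (u ∈ A ↔ v ∉ A) → (u ∈ A ↔ w ∉ A) → v = w

end Pool.Agent.H.MP_12d0d1_lc
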